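import Pool.Agent.helper85.PG.C

/-!
# The bound of the Paley graph conjecture for almost all primes

For arbitrary sets of integers fixed in advance, the power saving asked for by the Paley graph
conjecture holds for the quadratic character modulo `p`, for all primes `p ≤ Q` except at most
`C Q ^ (1 - τ)`, simultaneously for all segments and for countably many sets.

The proof compares the primes with the fourfold products `(a+b)(a+b')(a'+b)(a'+b')`: a high
moment over products of primes and the mean value zero of Jacobi symbols reduce the statement to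
counting pairs of such products whose product is a square. That count is bounded by counting the
solutions of `X ^ 2 = s W ^ 2 + m ^ 2`, uniformly in the squarefree integer `s`.
-/

namespace Pool.Agent.Results.MP_f6e9a2_nt.AlmostAllPrimes

open Classical in
/-- The elements of the set of integers `S` that lie in `[-x, x]`. -/
noncomputable def segment (S : Set ℤ) (x : ℕ) : Finset ℤ :=
  (Finset.Icc (-(x : ℤ)) x).filter (fun a => a ∈ S)

/-- `p` is bad for the sets `S 0, S 1, …` and `T 0, T 1, …`: there are `i, j ≤ p ^ τ` and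
`x, y ≤ p ^ K` such that `A = S i ∩ [-x, x]` and `B = T j ∩ [-y, y]` both have at least `p ^ ε`
elements and, for some complex weights `α`, `β` of modulus at most one, the sum of
`α a * β b * ((a + b) / p)` over `A × B` exceeds `p ^ (-τ) * |A| * |B|` in modulus. Here
`((a + b) / p)` is the Legendre symbol (the Jacobi symbol, used only for prime `p`). -/
def IsBad (S T : ℕ → Set ℤ) (ε τ : ℝ) (K p : ℕ) : Prop :=
  ∃ i j x y : ℕ, (i : ℝ) ≤ (p : ℝ) ^ τ ∧ (j : ℝ) ≤ (p : ℝ) ^ τ ∧ x ≤ p ^ K ∧ y ≤ p ^ K ∧
    (p : ℝ) ^ ε ≤ (segment (S i) x).card ∧ (p : ℝ) ^ ε ≤ (segment (T j) y).card ∧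
    ∃ α β : ℤ → ℂ, (∀ a, ‖α a‖ ≤ 1) ∧ (∀ b, ‖β b‖ ≤ 1) ∧
      (p : ℝ) ^ (-τ) * ((segment (S i) x).card * (segment (T j) y).card) <
        ‖∑ a ∈ segment (S i) x, ∑ b ∈ segment (T j) y,
          α a * β b * (jacobiSym (a + b) p : ℂ)‖

open Classical in
/-- For every `ε > 0` and `K` there are `τ > 0` and `C` such that, for all sequences of sets of
integers `S`, `T` and every `Q ≥ 1`, at most `C * Q ^ (1 - τ)` of the primes `p ≤ Q` are bad. -/
theorem result (ε : ℝ) (hε : 0 < ε) (K : ℕ) :
    ∃ τ : ℝ, 0 < τ ∧ ∃ C : ℝ, ∀ (S T : ℕ → Set ℤ) (Q : ℕ), 1 ≤ Q →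
      (((Finset.range (Q + 1)).filter (fun p => p.Prime ∧ IsBad S T ε τ K p)).card : ℝ) ≤
        C * (Q : ℝ) ^ (1 - τ) := by
  obtain ⟨τ, hτ, C, hC⟩ := Pool.Agent.helper85.PG.main ε hε K
  refine ⟨τ, hτ, C, fun S T Q hQ => ?_⟩
  exact hC S T Q hQ

end Pool.Agent.Results.MP_f6e9a2_nt.AlmostAllPrimes
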