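import Pool.Agent.helper85.FD.Four
import Pool.Agent.helper85.QD.Folner
import Pool.Agent.helper85.QD.FixedA
import Pool.Agent.helper85.QD.Consec

/-!
# `a p - b q = c`: quotients of shifted primes

Let `c` be a nonzero integer. Call a positive rational `r` good if `r = (p - c) / (q - c)` for
infinitely many pairs of primes `p, q`. If `r = b / a` in lowest terms, this means
`a p - b q = c (a - b)`: an instance of the question. All rationals are positive, with numerator and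
denominator prime to `c`.

1. A third of the quotients of the elements of every finite set are good.
2. In every subgroup a third of the elements of every large, almost invariant finite set are good:
   the good rationals have lower Banach density at least `1/3`.
3. For every `g ≠ 1` a third of the powers `g ^ t`, in every long interval of `t`, are good.
4. For every integer `a` prime to some `P` the set of `b` with `b / a` good has positive lower
   density.
5. If `c` has no small prime factor, for example if `c = 1` or `c = -1`, a positive proportion of the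
   quotients `a / (a + 1)` of consecutive integers are good, that is, `(a + 1) p - a q = c` for
   infinitely many pairs of primes `p, q`.

The proof applies the theorem of Maynard and Tao, in the form of `Pool.Agent.helper11.MK` (two primes
in different classes among four classes of linear forms), to the forms `u n + c`; the shift `c`
makes every system of such forms admissible. Parts 1 and 2 then use the Erdos-Stone theorem.
-/

namespace Pool.Agent.Results.MP_bf63dc_nt.ShiftedRatiosThird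

open Finset

/-- `r = (p - c) / (q - c)` for infinitely many pairs of primes `p, q`. -/
def Good (c : ℤ) (r : ℚ) : Prop :=
  {pq : ℕ × ℕ | pq.1.Prime ∧ pq.2.Prime ∧ (pq.1 : ℚ) - c = r * ((pq.2 : ℚ) - c)}.Infinite

/-- `r` is positive and its numerator and denominator are prime to `c`. -/
def PrimeTo (c : ℤ) (r : ℚ) : Prop :=
  0 < r ∧ ∀ p : ℕ, p.Prime → (p : ℤ) ∣ c → padicValRat p r = 0

lemma good_iff {c : ℤ} {r : ℚ} : Good c r ↔ Pool.Agent.helper85.QD.Quot c r 1 := by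
  unfold Good Pool.Agent.helper85.QD.Quot
  have : ∀ pq : ℕ × ℕ, ((pq.1 : ℚ) - c = r * ((pq.2 : ℚ) - c) ↔
      ((pq.1 : ℚ) - c) * 1 = ((pq.2 : ℚ) - c) * r) := by
    intro pq
    constructor
    · intro h
      linear_combination h
    · intro h
      linear_combination h
  simp only [this]

open Classical in
/-- **Quotients of shifted primes.** -/
theorem result :
    (∀ ε : ℝ, 0 < ε → ∃ K : ℕ, ∀ c : ℤ, c ≠ 0 → ∀ S : Finset ℚ, (∀ x ∈ S, PrimeTo c x) →
      (1 / 3 - ε) * (#S : ℝ) ^ 2 - K * #S ≤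
        #{p ∈ S ×ˢ S | p.1 ≠ p.2 ∧ Good c (p.1 / p.2)}) ∧
    (∀ c : ℤ, c ≠ 0 → ∀ H : Subgroup ℚˣ, (∀ x ∈ H, PrimeTo c (x : ℚ)) → ∀ ε : ℝ, 0 < ε →
      ∃ (E : Finset ℚˣ) (δ : ℝ) (n₀ : ℕ), 0 < δ ∧ (∀ e ∈ E, e ∈ H) ∧
        ∀ F : Finset ℚˣ, (∀ x ∈ F, x ∈ H) → n₀ ≤ #F →
          (∀ e ∈ E, (#{x ∈ F | e * x ∉ F} : ℝ) ≤ δ * #F) →
          (1 / 3 - ε) * (#F : ℝ) ≤ #(F.filter fun x : ℚˣ => Good c (x : ℚ))) ∧
    (∀ c : ℤ, c ≠ 0 → ∀ g : ℚ, PrimeTo c g → g ≠ 1 → ∀ ε : ℝ, 0 < ε → ∃ L₀ : ℕ,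
      ∀ (M : ℤ) (L : ℕ), L₀ ≤ L →
        (1 / 3 - ε) * (L : ℝ) ≤ #{t ∈ Finset.Ico M (M + L) | Good c (g ^ t)}) ∧
    (∀ c : ℤ, c ≠ 0 → ∃ P : ℕ, 0 < P ∧ IsCoprime (P : ℤ) c ∧
      ∀ a : ℕ, 0 < a → Nat.Coprime a P → IsCoprime (a : ℤ) c → ∃ δ : ℝ, 0 < δ ∧ ∃ N₀ : ℕ,
        ∀ N : ℕ, N₀ ≤ N → δ * N ≤ #((Icc 1 N).filter fun b : ℕ =>
          Nat.Coprime a b ∧ IsCoprime (b : ℤ) c ∧ Good c (b / a : ℚ))) ∧
    (∃ (K : ℕ) (δ : ℝ), 0 < δ ∧ ∀ c : ℤ, c ≠ 0 → (∀ p : ℕ, p.Prime → (p : ℤ) ∣ c → K < p) →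
      ∀ N : ℕ, K * c.natAbs ≤ N → δ * N / c.natAbs ≤
        #((Icc 1 N).filter fun a : ℕ => Good c (a / (a + 1) : ℚ))) := by
  refine ⟨fun ε hε => ?_, fun c hc H hH ε hε => ?_, fun c hc g hg hg1 ε hε => ?_, fun c hc => ?_, ?_⟩
  · obtain ⟨K, hK⟩ := Pool.Agent.helper85.QD.quotients_third Pool.Agent.helper85.FD.cm4 hε
    refine ⟨K, fun c hc S hS => ?_⟩
    refine (hK c hc S (fun x hx => (hS x hx).1) (fun x hx => (hS x hx).2)).trans ?_
    have h1 : #{p ∈ S ×ˢ S | p.1 ≠ p.2 ∧ Pool.Agent.helper85.QD.Quot c p.1 p.2} ≤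
        #{p ∈ S ×ˢ S | p.1 ≠ p.2 ∧ Good c (p.1 / p.2)} := by
      refine card_le_card fun p hp => ?_
      rw [mem_filter] at hp ⊢
      refine ⟨hp.1, hp.2.1, ?_⟩
      rw [good_iff]
      exact (Pool.Agent.helper85.QD.Quot.div (hS _ (mem_product.1 hp.1).2).1.ne').2 hp.2.2
    exact_mod_cast h1
  · obtain ⟨E, δ, n₀, hδ, hE, hF⟩ := Pool.Agent.helper85.QD.quot_folner Pool.Agent.helper85.FD.cm4 c hc H hH hε
    refine ⟨E, δ, n₀, hδ, hE, fun F h1 h2 h3 => ?_⟩
    simp only [good_iff]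
    exact hF F h1 h2 h3
  · obtain ⟨L₀, hL₀⟩ := Pool.Agent.helper85.QD.powers_third Pool.Agent.helper85.FD.cm4 c hc g hg.1 hg1 hg.2 hε
    refine ⟨L₀, fun M L hL => ?_⟩
    simp only [good_iff]
    exact hL₀ M L hL
  · simp only [good_iff]
    exact Pool.Agent.helper85.QD.fixed_a c hc
  · obtain ⟨K, δ, hδ, H⟩ := Pool.Agent.helper85.QD.consecutive Pool.Agent.helper85.FD.cm4
    refine ⟨K, δ, hδ, fun c hc hcK N hN => (H c hc hcK N hN).trans ?_⟩
    have h1 : #{a ∈ Icc 1 N | Pool.Agent.helper39.MT.InfSol (a + 1) a c} ≤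
        #((Icc 1 N).filter fun a : ℕ => Good c (a / (a + 1) : ℚ)) := by
      refine card_le_card fun a ha => ?_
      rw [mem_filter] at ha ⊢
      refine ⟨ha.1, ha.2.mono ?_⟩
      rintro ⟨p, q⟩ ⟨hp, hq, h2⟩
      refine ⟨hp, hq, ?_⟩
      simp only at h2 ⊢
      have h3 : ((a + 1 : ℕ) : ℚ) * p - a * q = c := by exact_mod_cast congrArg (Int.cast : ℤ → ℚ) h2
      push_cast at h3
      have h4 : ((a : ℚ) + 1) ≠ 0 := by positivity
      field_simp
      linarith
    exact_mod_cast h1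

end Pool.Agent.Results.MP_bf63dc_nt.ShiftedRatiosThird
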