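import Pool.Agent.helper85.PG.Final

/-!
# The Paley graph conjecture for two sets of small doubling

A power saving in the double sum over `A × B` when `|A|, |B| ≥ p ^ (1 / 4 + ε)` (more generally
`|A| |B| ≥ p ^ (1 / 2 + ε)` and `|A|, |B| ≥ p ^ ε`) and both sets have small doubling; more generally
`A` and `B` are only assumed to be almost invariant under addition of large sets `C` and `D` of small
doubling.

The main new ingredient is a level set theorem for the ratios `ρ` with many solutions of `y' = ρ y` in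
the image `P` of a ball of a discrete subgroup of `E × ZMod p` (`E` a real normed space of bounded
dimension): at most `p ^ o(1) (|P| / M) ^ 2` ratios have `M` solutions, if `M` exceeds the expected
number. It is proved by comparing all scales and by induction on the dimension, and gives the
multiplicative energies of progressions of bounded rank (proper or not), of their sums and of their
intersections. For the character sums there are two cases, according to the size of the intersection
of the two progressions.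
-/

namespace Pool.Agent.Results.MP_f6e9a2_nt.SmallDoubling

open Pointwise

/-- For all `K` and `ε > 0` there are `δ > 0` and `p₀` such that for all primes `p > p₀`, all nonempty
sets `A, B, C, D` in `ZMod p` with `|C + C| ≤ K |C|`, `|A + C| ≤ K |A|`, `|D + D| ≤ K |D|`,
`|B + D| ≤ K |B|`, `|C| ≥ p ^ ε`, `|D| ≥ p ^ ε` and `|C| |D| ≥ p ^ (1 / 2 + ε)`, every nontrivial
multiplicative character `χ` and all weights `|β b| ≤ 1`, the sum over `a ∈ A` of
`|∑ b ∈ B, β b χ(a + b)|` is at most `p ^ (-δ) |A| |B|`. -/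
theorem result (K ε : ℝ) (hε : 0 < ε) : ∃ (δ : ℝ) (p₀ : ℕ), 0 < δ ∧
    ∀ (p : ℕ) [Fact p.Prime], p₀ < p → ∀ A B C D : Finset (ZMod p),
      A.Nonempty → B.Nonempty → C.Nonempty → D.Nonempty →
      ((C + C).card : ℝ) ≤ K * C.card → ((A + C).card : ℝ) ≤ K * A.card →
      ((D + D).card : ℝ) ≤ K * D.card → ((B + D).card : ℝ) ≤ K * B.card →
      (p : ℝ) ^ ε ≤ C.card → (p : ℝ) ^ ε ≤ D.card → (p : ℝ) ^ (1 / 2 + ε) ≤ C.card * D.card →
      ∀ χ : MulChar (ZMod p) ℂ, χ ≠ 1 → ∀ β : ZMod p → ℂ, (∀ b, ‖β b‖ ≤ 1) →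
        ∑ a ∈ A, ‖∑ b ∈ B, β b * χ (a + b)‖ ≤ (p : ℝ) ^ (-δ) * (A.card * B.card) := by
  obtain ⟨δ, p₀, hδ, h⟩ := Pool.Agent.helper85.PG.fnd K ε hε
  exact ⟨δ, p₀, hδ, fun p _ hp A B C D hA hB hC hD h1 h2 h3 h4 h5 h6 h7 χ hχ β hβ =>
    h p hp.le A B C D hA hB hC hD h1 h2 h3 h4 h5 h6 h7 χ hχ β hβ⟩

end Pool.Agent.Results.MP_f6e9a2_nt.SmallDoubling
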