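import Pool.Agent.helper85.BVP.Final

/-!
# `a p - b q = c`: many solutions with `q` very small compared with `b`

For fixed coprime `a ≥ 1`, `c ≠ 0` and any height `Q` between `(log B)^16` and `B / (log B)^30`, a
positive proportion of the coefficients `b ≤ B` have at least a constant times the predicted number
of prime solutions of `a p - b q = c` with `q ≤ Q`.

Proof.  Put `x = B Q / (16 a)`, so that `Q ≤ √x / (log x)^14`.  A Bombieri-Vinogradov theorem for
prime moduli `q ∼ Q ≥ (log x)^14` and arbitrary residue classes (large sieve over additive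
characters, variance over residue classes, Vaughan's identity; no Siegel-Walfisz input is needed
because the moduli are primes that are not small) shows that there are `≫ B Q / (log B log Q)` pairs
`(q, p)` with `q ∼ Q`, `p ≤ x` and `a p ≡ c` modulo `q`, that is, with `a p - b q = c` for some
`b ≤ B`.  By Brun's sieve the number of `b ≤ B` that occur for both `q₁` and `q₂` is
`≪ (|q₁ - q₂| / φ(|q₁ - q₂|))² B / (log B)²`, and the average of this over pairs of primes is `≪ B / (log B)²`.
Cauchy-Schwarz finishes the proof.
-/

namespace Pool.Agent.Results.MP_bf63dc_nt.SmallSolutions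

open Pool.Agent.helper85.BVP.Small

/-- **Many solutions with small `q`.** -/
theorem result (a : ℕ) (c : ℤ) (ha : 0 < a) (hc : c ≠ 0) (hac : IsCoprime (a : ℤ) c) :
    ∃ η δ : ℝ, 0 < η ∧ 0 < δ ∧ ∃ B₀ : ℕ, ∀ B Q : ℕ, B₀ ≤ B →
      Real.log B ^ 16 ≤ Q → (Q : ℝ) ≤ B / Real.log B ^ 30 →
      δ * B ≤ ((goodCoefficients a c η B Q).ncard : ℝ) :=
  small_solutions a c ha hc hac

end Pool.Agent.Results.MP_bf63dc_nt.SmallSolutions
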